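import Mathlib
import Pool.Agent.Y703.CQ.Stm

/-!
# The exact proportion for the class of the primes `1`, `3`, `5` modulo `8` (after project CQ)

`D` runs over the products of different primes `≡ 1` modulo `8` and `≡ 3` or `5` modulo `8` (the
parameter `I` is the set of the residues allowed besides `1`). The symmetric matrix over `𝔽₂` indexed
by the primes `1` modulo `8` of `D` (the Laplacian of the quadratic symbols, plus the symbols of the
other primes and an arbitrary function on the diagonal) is nonsingular for exactly the proportion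
`∏_{i ≥ 0} (1 - 2^{-(2i+1)}) = 0.419...`.
Statements of the parts, an adaptation of project CQ (helper703) and of helper413's version
(`Pool.Agent.R413.SQ`) to another class of primes; the parameter `K` has no meaning here.
-/

set_option autoImplicit false
set_option linter.unusedVariables false

open scoped Classical

namespace Pool.Agent.Run7.h741.S8

open Finset
open Pool.Agent.Y703.CX (sm la jj XX eL zz kk S_SIE)
open Pool.Agent.Y703.CQ (nr cu Sol Gd Nd S_BIL S_BOX sg prs HB S_EQ ext GdA S_SYM S_C2 S_LA c2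
  S_MER S_CHE)

/-- the split primes -/
def Sp (p : ℕ) : Prop := p.Prime ∧ p % 8 = 1

/-- the inert primes -/
def In (I : Finset ℕ) (r : ℕ) : Prop := r.Prime ∧ r % 8 ∈ I ∧ (r % 8 = 3 ∨ r % 8 = 5)

/-- the parameters -/
def Ok (I K : Finset ℕ) : Prop := I = {3} ∨ I = {5} ∨ I = {3, 5}

/-- the class of the sets of primes -/
def Cl (I K S : Finset ℕ) : Prop := ∀ p ∈ S, Sp p ∨ In I p

/-- the sets of the class with product at most `X` -/
noncomputable def SS (I K : Finset ℕ) (X : ℕ) : Finset (Finset ℕ) :=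
  (range (X + 1)).powerset.filter fun S => Cl I K S ∧ ∏ p ∈ S, p ≤ X

/-- the density of the primes of the class -/
noncomputable def dl (I : Finset ℕ) : ℝ := (1 + (I.card : ℝ)) / 4

/-- FINAL: the proportion of the good sets -/
def S_DQ : Prop := ∀ (I K : Finset ℕ) (f : ℕ → ZMod 2), Ok I K → Filter.Tendsto
  (fun X : ℕ => (((SS I K X).filter (Gd f)).card : ℝ) / ((SS I K X).card : ℝ)) Filter.atTop (nhds c2)

/-- FINAL, in terms of the numbers `D`. -/
def S_DEN : Prop := ∀ (I K : Finset ℕ) (f : ℕ → ZMod 2), Ok I K → Filter.Tendsto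
  (fun X : ℕ => (((Icc 1 X).filter fun D => Squarefree D ∧ Cl I K D.primeFactors ∧
      Gd f D.primeFactors).card : ℝ) /
    (((Icc 1 X).filter fun D => Squarefree D ∧ Cl I K D.primeFactors).card : ℝ))
  Filter.atTop (nhds c2)

/-- NS: the translation. -/
def S_NS : Prop := S_DQ → S_DEN

/-- the regular sets -/
noncomputable def RR (I K : Finset ℕ) (X z H k V : ℕ) : Finset (Finset ℕ) :=
  (SS I K X).filter fun S => Set.InjOn (jj H) (la z S : Set ℕ) ∧ S.card ≤ k ∧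
    (∏ p ∈ sm z S, p) * ∏ p ∈ la z S, XX H (jj H p) ≤ X ∧
    2 * (sm z S).card + V < ((la z S).filter fun p => p % 8 = 1).card ∧
    ∃ p ∈ la z S, p % 8 ≠ 1

/-- KEY: the sum over the boxes. -/
def S_KEY : Prop := S_BIL → S_EQ → S_LA → S_BOX → ∃ C : ℝ, 1 ≤ C ∧
  ∀ (I K : Finset ℕ) (f : ℕ → ZMod 2) (X z H k V N : ℕ) (κ : ℝ), Ok I K → 1 ≤ X → 1 ≤ H → 1 ≤ z →
  0 ≤ κ → C ≤ κ ^ 12 * z → (H : ℝ) * Real.log X < N →
  |(((RR I K X z H k V).filter fun S => Nd (sm z S) (la z S) ∧ Gd f S).card : ℝ) -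
      c2 * (((RR I K X z H k V).filter fun S => Nd (sm z S) (la z S)).card : ℝ)| ≤
    2 * (1 / 2 : ℝ) ^ V * ((RR I K X z H k V).card : ℝ) +
    (9 * N + 9 : ℝ) ^ k * (3 ^ (3 * k ^ 2) * κ) * (X * (1 + Real.log X))

/-- CNT: sets with many primes, sets near the boundary, sets with two primes in a block. -/
structure CntP : Prop where
  many : ∀ (I K : Finset ℕ) (X k : ℕ), Ok I K → 1 ≤ X →
    (((SS I K X).filter fun S => k < S.card).card : ℝ) * 2 ^ k ≤ X * (1 + Real.log X)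
  cut : ∀ (I K : Finset ℕ) (X z H k : ℕ), Ok I K → 1 ≤ X → 1 ≤ H →
    (((SS I K X).filter fun S => S.card ≤ k ∧
      X < (∏ p ∈ sm z S, p) * ∏ p ∈ la z S, XX H (jj H p)).card : ℝ) ≤ X * k / H + 1
  coll : ∀ (I K : Finset ℕ) (X z H : ℕ), Ok I K → 1 ≤ X → 1 ≤ H → (((SS I K X).filter fun S =>
    ¬ Set.InjOn (jj H) (la z S : Set ℕ)).card : ℝ) ≤ 4 * X * (1 + Real.log X) / H

/-- the sets of split primes on which the product of the primes in `W` is a square -/
noncomputable def HD (W : Finset ℕ) (T : ℕ) : Finset (Finset ℕ) :=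
  (range (T + 1)).powerset.filter fun S => (∀ p ∈ S, Sp p ∧ p ∉ W ∧ ∑ u ∈ W, nr p u = 0) ∧
    ∏ p ∈ S, p ≤ T

/-- HAL: the logarithmic density for a nontrivial quadratic character. -/
def S_HAL : Prop := ∃ C : ℝ, 1 ≤ C ∧ ∀ (W : Finset ℕ) (T : ℕ), W.Nonempty →
  (∀ u ∈ W, u.Prime ∧ u % 8 = 1) → 2 ≤ T →
  ∑ S ∈ HD W T, (1 : ℝ) / ((∏ p ∈ S, p : ℕ) : ℝ) ≤
    C * (Real.log ((∏ u ∈ W, u : ℕ) : ℝ)) ^ (1 / 2 : ℝ) * (Real.log T) ^ (1 / 8 : ℝ)

/-- BAD: few sets have degenerate labels. -/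
def S_BAD : Prop := S_SIE → S_HAL → S_MER → ∀ (I K : Finset ℕ), Ok I K →
  ∃ (C : ℝ) (X₀ : ℕ), ∀ X : ℕ, X₀ ≤ X →
  (((SS I K X).filter fun S => S.card ≤ kk X ∧ ¬ Nd (sm (zz X) S) (la (zz X) S)).card : ℝ) ≤
    C * X * (Real.log X) ^ (-1 + dl I - 1 / 32 : ℝ)

/-- FEW: few sets have few large split primes or no large inert prime. -/
def S_FEW : Prop := S_SIE → S_MER → ∀ (I K : Finset ℕ) (V : ℕ), Ok I K →
  ∃ (C : ℝ) (X₀ : ℕ), ∀ X : ℕ, X₀ ≤ X →
  (((SS I K X).filter fun S => ((la (zz X) S).filter fun p => p % 8 = 1).card ≤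
      2 * (sm (zz X) S).card + V ∨ ∀ p ∈ la (zz X) S, p % 8 = 1).card : ℝ) ≤
    C * X * (Real.log X) ^ (-1 + dl I - 1 / 32 : ℝ)

/-- LOW: the lower bound for the size of the class. -/
def S_LOW : Prop := S_MER → S_CHE → ∀ (I K : Finset ℕ), Ok I K →
  ∃ (c : ℝ) (X₀ : ℕ), 0 < c ∧ ∀ X : ℕ, X₀ ≤ X →
  c * X * (Real.log X) ^ (-1 + dl I : ℝ) ≤ ((SS I K X).card : ℝ)

/-- a prime of the class -/
theorem pr1 {I : Finset ℕ} {p : ℕ} (h : Sp p ∨ In I p) : p.Prime ∧ p ≠ 2 := by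
  rcases h with h | h
  · refine ⟨h.1, ?_⟩
    rintro rfl
    exact absurd h.2 (by norm_num)
  · refine ⟨h.1, ?_⟩
    rintro rfl
    exact absurd h.2.2 (by norm_num)

theorem In.ne1 {I : Finset ℕ} {r : ℕ} (h : In I r) : r % 8 ≠ 1 := by
  obtain ⟨-, -, h | h⟩ := h <;> omega

end Pool.Agent.Run7.h741.S8
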