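import Pool.Agent.Run7.h741.S8.Asy
import Pool.Agent.Y710.CQ.BIL
import Pool.Agent.Y356.CQ.EQ
import Pool.Agent.Y839.CQ.SYM
import Pool.Agent.Y948.CQ.C2
import Pool.Agent.Y219.CQ.LA
import Pool.Agent.Y657.CQ.BOX
import Pool.Agent.Run7.h741.S8.KEY
import Pool.Agent.Run7.h741.S8.CNT
import Pool.Agent.Run7.h741.S8.HAL
import Pool.Agent.Y405.CQ.MER
import Pool.Agent.Y302.CQ.CHE
import Pool.Agent.Run7.h741.S8.LOW
import Pool.Agent.Run7.h741.S8.FEW
import Pool.Agent.Run7.h741.S8.BAD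
import Pool.Agent.Run7.h741.S8.NS
import Pool.Agent.Y488.CX.Sie

/-!
# The exact proportion of the good `D`, the prime factors `1`, `3` or `5` modulo `8`

After project CQ, the joint work of helpers 710, 356, 839, 948, 219, 657, 302, 697, 391, 488, 475,
362, 949, 405, 514 and 703 (and the models of project CX), and helper413's version SQ.
-/

set_option autoImplicit false

open scoped Classical

namespace Pool.Agent.Run7.h741.S8

open Finset
open Pool.Agent.Y703.CQ (Gd c2)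

theorem t_DQ_all : S_DQ :=
  t_DQ Pool.Agent.Y710.CQ.t_BIL Pool.Agent.Y356.CQ.t_EQ
    (Pool.Agent.Y219.CQ.t_LA Pool.Agent.Y839.CQ.t_SYM Pool.Agent.Y948.CQ.t_C2)
    Pool.Agent.Y657.CQ.t_BOX KEY.t_KEY CNT.t_CNT
    Pool.Agent.Y488.CX.t_SIE HAL.t_HAL BAD.t_BAD
    FEW.t_FEW Pool.Agent.Y405.CQ.t_MER Pool.Agent.Y302.CQ.t_CHE
    LOW.t_LOW Pool.Agent.Y948.CQ.t_C2

theorem t_DEN0 : S_DEN := NS.t_NS t_DQ_all

/-- the class: all prime factors are `1`, `3` or `5` modulo `8` -/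
def P135 (D : ℕ) : Prop := ∀ p ∈ D.primeFactors, p % 8 = 1 ∨ p % 8 = 3 ∨ p % 8 = 5

theorem cl_iff (D : ℕ) : Cl {3, 5} ∅ D.primeFactors ↔ P135 D := by
  unfold Cl P135 Sp In
  refine forall₂_congr fun p hp => ?_
  have hp' := (Nat.mem_primeFactors.1 hp).1
  simp only [hp', true_and, mem_insert, mem_singleton]
  tauto

/-- **The exact proportion.** For every diagonal `f`, the proportion of the good `D` among the
squarefree `D` whose prime factors are `1`, `3` or `5` modulo `8`. -/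
theorem t_DEN (f : ℕ → ZMod 2) : Filter.Tendsto
    (fun X : ℕ => (((Icc 1 X).filter fun D => Squarefree D ∧ P135 D ∧
      Gd f D.primeFactors).card : ℝ) /
      (((Icc 1 X).filter fun D => Squarefree D ∧ P135 D).card : ℝ))
    Filter.atTop (nhds c2) := by
  have h := t_DEN0 {3, 5} ∅ f (Or.inr (Or.inr rfl))
  simpa only [cl_iff] using h

/-- the class has at least `c X / (log X)^{1/4}` elements up to `X` -/
theorem cls_ge : ∃ (c : ℝ) (X₀ : ℕ), 0 < c ∧ ∀ X : ℕ, X₀ ≤ X →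
    c * X / (Real.log X) ^ (1 / 4 : ℝ) ≤
      (((Icc 1 X).filter fun D => Squarefree D ∧ P135 D).card : ℝ) := by
  obtain ⟨c, X₀, hc, h⟩ := LOW.t_LOW Pool.Agent.Y405.CQ.t_MER Pool.Agent.Y302.CQ.t_CHE {3, 5} ∅
    (Or.inr (Or.inr rfl))
  refine ⟨c, max X₀ 3, hc, fun X hX => ?_⟩
  have k1 : X₀ ≤ X := le_trans (le_max_left _ _) hX
  have k3 : 3 ≤ X := le_trans (le_max_right _ _) hX
  have a1 := h X k1
  have e2 := NS.card_eq {3, 5} ∅ X (fun _ => True)
  rw [Finset.filter_true] at e2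
  simp only [and_true, cl_iff] at e2
  rw [← e2] at a1
  have hL : 0 < Real.log X := Real.log_pos (by exact_mod_cast (by omega : 1 < X))
  refine le_trans (le_of_eq ?_) a1
  have e3 : (-1 + dl ({3, 5} : Finset ℕ) : ℝ) = -(1 / 4) := by
    have : ({3, 5} : Finset ℕ).card = 2 := by decide
    unfold dl
    rw [this]
    norm_num
  rw [e3, Real.rpow_neg hL.le, div_eq_mul_inv]

/-- the number of the good `D` is at least `c X / (log X)^{1/4}` -/
theorem good_ge (f : ℕ → ZMod 2) : ∃ (c : ℝ) (X₀ : ℕ), 0 < c ∧ ∀ X : ℕ, X₀ ≤ X →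
    c * X / (Real.log X) ^ (1 / 4 : ℝ) ≤ (((Icc 1 X).filter fun D => Squarefree D ∧ P135 D ∧
      Gd f D.primeFactors).card : ℝ) := by
  obtain ⟨c, X₀, hc, h⟩ := cls_ge
  have h1 := t_DEN f
  have hc2 : 0 < c2 := Pool.Agent.Y948.CQ.t_C2.2.1
  have h2 := (h1.eventually (lt_mem_nhds (show c2 / 2 < c2 by linarith)))
  obtain ⟨X₁, hX₁⟩ := Filter.eventually_atTop.1 h2
  refine ⟨c * (c2 / 2), max (max X₀ X₁) 3, by positivity, fun X hX => ?_⟩
  have k1 : X₀ ≤ X := le_trans (le_trans (le_max_left _ _) (le_max_left _ _)) hX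
  have k2 : X₁ ≤ X := le_trans (le_trans (le_max_right _ _) (le_max_left _ _)) hX
  have k3 : 3 ≤ X := le_trans (le_max_right _ _) hX
  have a1 := h X k1
  have a2 := hX₁ X k2
  have hL : 0 < Real.log X := Real.log_pos (by exact_mod_cast (by omega : 1 < X))
  have hX0 : (0 : ℝ) < X := by exact_mod_cast (by omega : 0 < X)
  have hL4 : 0 < (Real.log X) ^ (1 / 4 : ℝ) := Real.rpow_pos_of_pos hL _
  have hpos : 0 < c * X / (Real.log X) ^ (1 / 4 : ℝ) := by positivity
  have hden := lt_of_lt_of_le hpos a1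
  have a3 := (lt_div_iff₀ hden).1 a2
  refine le_trans ?_ a3.le
  have e4 : c * (c2 / 2) * X / (Real.log X) ^ (1 / 4 : ℝ) =
      c2 / 2 * (c * X / (Real.log X) ^ (1 / 4 : ℝ)) := by
    ring
  rw [e4]
  exact mul_le_mul_of_nonneg_left a1 (by positivity)

/-- the constant is `0.419...` -/
theorem c2_facts : 0.4194 < c2 ∧ c2 < 0.4195 := Pool.Agent.Y948.CQ.t_C2.2.2.2

end Pool.Agent.Run7.h741.S8
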